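import Pool.Agent.helper64.QF.Spec

set_option autoImplicit false

namespace Pool.Agent.helper64.QF

open Metric MeasureTheory Set Filter Topology
open Pool.Agent.helper37.PR

theorem FIN_pos (n : ℕ) (A : E n →L[ℂ] E n) (h : kPlus A < 2 * mNum A) : ∃ z : E n, ‖z‖ = 1 := by
  by_contra hno
  push Not at hno
  have h0 : ∀ z : E n, z = 0 := by
    intro z
    by_contra hz
    apply hno (((‖z‖⁻¹ : ℝ) : ℂ) • z)
    have : 0 < ‖z‖ := norm_pos_iff.2 hz
    rw [norm_smul, Complex.norm_real, Real.norm_of_nonneg (by positivity), inv_mul_cancel₀ this.ne']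
  have h1 : mNum A = 0 := by
    unfold mNum
    have : {x : ℝ | ∃ z : E n, ‖z‖ = 1 ∧ x = (inner ℂ z (A z) : ℂ).re} = ∅ := by
      ext x
      simp only [Set.mem_ofPred_eq, mem_empty_iff_false, iff_false]
      rintro ⟨z, hz, -⟩
      exact hno z hz
    rw [this, Real.sInf_empty]
  have h2 : kPlus A = 0 := by
    unfold kPlus
    have : {x : ℝ | ∃ l : ℂ, (∃ z : E n, z ≠ 0 ∧ A z = l • z) ∧ x = l.re} = ∅ := by
      ext x
      simp only [Set.mem_ofPred_eq, mem_empty_iff_false, iff_false]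
      rintro ⟨l, ⟨z, hz, -⟩, -⟩
      exact hz (h0 z)
    rw [this, Real.sSup_empty]
  rw [h1, h2] at h
  simp at h

theorem FIN (hCLS : CLS_stmt) (hINT : INT_stmt) (hUPB : UPB_stmt) (hLWB : LWB_stmt) : FIN_stmt := by
  intro n A hA
  obtain ⟨z₀, hz₀⟩ := FIN_pos n A hA
  obtain ⟨m, κ, C, hC⟩ := hCLS n A hA
  have hI := hINT n A m κ C hC
  have hU := hUPB n A m κ C hC
  have hL := hLWB n A m κ C hC
  have hC1 := hC.C1
  have hneg : κ - 2 * m < 0 := by linarith [hC.κ2]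
  have hJ0 : ∀ U V : E n, 0 ≤ JA A U V := by
    intro U V
    unfold JA
    apply setIntegral_nonneg measurableSet_Ioi
    intro t ht
    exact ((hI U V).2.2 t (le_of_lt ht)).1
  set B : ℝ := ∫ t in Ioi (0 : ℝ), 4 * ‖A‖ * C * Real.exp ((κ - 2 * m) * t) with hB
  have hJB : ∀ U V : E n, ‖U‖ = 1 → ‖V‖ = 1 → JA A U V ≤ B := by
    intro U V hU1 hV1
    unfold JA
    rw [hB]
    apply setIntegral_mono_on (hI U V).2.1 ((integrableOn_exp_mul_Ioi hneg 0).const_mul _) measurableSet_Ioi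
    intro t ht
    have := ((hI U V).2.2 t (le_of_lt ht)).2
    rw [hU1, hV1] at this
    simpa using this
  have hstep : ∀ U V : E n, ∀ b : ℝ, (∀ f, ParamRep A f → ‖(inner ℂ V (P2 f U) : ℂ)‖ ≤ b) → JA A U V ≤ b := by
    intro U V b hb
    apply le_of_forall_pos_le_add
    intro ε hε
    obtain ⟨f, hf1, hf2⟩ := hL U V ε hε
    have := hb f hf1
    linarith
  have hS2 : BddAbove {y : ℝ | ∃ U V : E n, ‖U‖ = 1 ∧ ‖V‖ = 1 ∧ y = JA A U V} :=
    ⟨B, by
      rintro y ⟨U, V, h1, h2, rfl⟩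
      exact hJB U V h1 h2⟩
  have hS3 : BddAbove {y : ℝ | ∃ U : E n, ‖U‖ = 1 ∧ y = JA A U U} :=
    ⟨B, by
      rintro y ⟨U, h1, rfl⟩
      exact hJB U U h1 h1⟩
  refine ⟨?_, ?_, ?_⟩
  · intro U V
    refine ⟨(hI U V).2.1, ?_, ?_⟩
    · rintro x ⟨f, hf, rfl⟩
      exact hU f hf U V
    · intro b hb
      exact hstep U V b (fun f hf => hb ⟨f, hf, rfl⟩)
  · refine ⟨?_, ?_⟩
    · rintro x ⟨f, hf, z, hz, rfl⟩
      by_cases h0 : P2 f z = 0
      · rw [h0, norm_zero]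
        exact (hJ0 z z).trans (le_csSup hS2 ⟨z, z, hz, hz, rfl⟩)
      · have hw : 0 < ‖P2 f z‖ := norm_pos_iff.2 h0
        set V : E n := ((‖P2 f z‖⁻¹ : ℝ) : ℂ) • P2 f z with hV
        have hV1 : ‖V‖ = 1 := by
          rw [hV, norm_smul, Complex.norm_real, Real.norm_of_nonneg (by positivity), inv_mul_cancel₀ hw.ne']
        have h1 := hU f hf z V
        have h2 : ‖(inner ℂ V (P2 f z) : ℂ)‖ = ‖P2 f z‖ := by
          rw [hV, inner_smul_left, Complex.conj_ofReal, norm_mul, Complex.norm_real, Real.norm_of_nonneg (by positivity)]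
          have h3 : ‖(inner ℂ (P2 f z) (P2 f z) : ℂ)‖ = ‖P2 f z‖ ^ 2 := by
            rw [inner_self_eq_norm_sq_to_K, norm_pow]
            congr 1
            exact (Complex.norm_real _).trans (norm_norm (P2 f z))
          rw [h3]
          field_simp
        rw [h2] at h1
        exact h1.trans (le_csSup hS2 ⟨z, V, hz, hV1, rfl⟩)
    · intro b hb
      refine csSup_le ⟨JA A z₀ z₀, z₀, z₀, hz₀, hz₀, rfl⟩ ?_
      rintro y ⟨U, V, h1, h2, rfl⟩
      apply hstep U V b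
      intro f hf
      have h3 := norm_inner_le_norm (𝕜 := ℂ) V (P2 f U)
      rw [h2, one_mul] at h3
      exact h3.trans (hb ⟨f, hf, U, h1, rfl⟩)
  · refine ⟨?_, ?_⟩
    · rintro x ⟨f, hf, z, hz, rfl⟩
      exact (hU f hf z z).trans (le_csSup hS3 ⟨z, hz, rfl⟩)
    · intro b hb
      refine csSup_le ⟨JA A z₀ z₀, z₀, hz₀, rfl⟩ ?_
      rintro y ⟨U, h1, rfl⟩
      exact hstep U U b (fun f hf => hb ⟨f, hf, U, h1, rfl⟩)

end Pool.Agent.helper64.QF
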