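import Pool.Agent.helper64.QF.Spec

set_option autoImplicit false

namespace Pool.Agent.helper64.QF

open Metric MeasureTheory Set Filter Topology
open Pool.Agent.helper37.PR

theorem SPM_rmk {X : Type} [TopologicalSpace X] [CompactSpace X] [T2Space X] [MeasurableSpace X] [BorelSpace X]
    (ℓ : C(X, ℝ) →L[ℝ] ℝ) (hℓ : ∀ φ : C(X, ℝ), (∀ x, 0 ≤ φ x) → 0 ≤ ℓ φ) :
    ∃ μ : Measure X, IsFiniteMeasure μ ∧ ∀ φ : C(X, ℝ), ∫ x, φ x ∂μ = ℓ φ := by
  let Λ : CompactlySupportedContinuousMap X ℝ →ₚ[ℝ] ℝ :=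
    { toFun := fun h => ℓ h.toContinuousMap
      map_add' := by
        intro a b
        have : (a + b).toContinuousMap = a.toContinuousMap + b.toContinuousMap := rfl
        rw [this, map_add]
      map_smul' := by
        intro c a
        have : (c • a).toContinuousMap = c • a.toContinuousMap := rfl
        rw [this, map_smul]; rfl
      monotone' := by
        intro a b hab
        have h1 := hℓ (b.toContinuousMap - a.toContinuousMap) (fun x => sub_nonneg.2 (hab x))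
        rw [map_sub] at h1
        exact sub_nonneg.1 h1 }
  refine ⟨RealRMK.rieszMeasure Λ, inferInstance, ?_⟩
  intro φ
  exact RealRMK.integral_rieszMeasure Λ ⟨φ, HasCompactSupport.of_compactSpace φ⟩

theorem SPM_sep {X : Type} [TopologicalSpace X] [CompactSpace X] [Nonempty X] (L : Submodule ℝ C(X, ℝ)) (φ0 : C(X, ℝ))
    (h : ∀ ψ ∈ L, ¬ ∀ x, 0 < (φ0 + ψ) x) : ∃ ℓ : C(X, ℝ) →L[ℝ] ℝ, (∀ φ : C(X, ℝ), (∀ x, 0 ≤ φ x) → 0 ≤ ℓ φ) ∧
      0 < ℓ 1 ∧ ℓ φ0 ≤ 0 ∧ ∀ ψ ∈ L, ℓ ψ = 0 := by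
  have hPo : IsOpen {φ : C(X, ℝ) | ∀ x, 0 < φ x} := by
    have := ContinuousMap.isOpen_setOfPred_mapsTo (X := X) (Y := ℝ) isCompact_univ (isOpen_Ioi (a := (0:ℝ)))
    convert this using 1
    ext φ; simp [MapsTo]
  have hPc : Convex ℝ {φ : C(X, ℝ) | ∀ x, 0 < φ x} := by
    intro a ha b hb s t hs ht hst x
    have h1 := ha x
    have h2 := hb x
    show 0 < s * a x + t * b x
    rcases hs.eq_or_lt with h0 | h0
    · rw [← h0] at hst ⊢
      have : t = 1 := by linarith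
      rw [this]; simpa using h2
    · have e1 : 0 < s * a x := mul_pos h0 h1
      have e2 : 0 ≤ t * b x := mul_nonneg ht h2.le
      linarith
  have hTc : Convex ℝ {φ : C(X, ℝ) | ∃ ψ ∈ L, φ = φ0 + ψ} := by
    rintro a ⟨ψ, hψ, rfl⟩ b ⟨ψ', hψ', rfl⟩ s t hs ht hst
    refine ⟨s • ψ + t • ψ', L.add_mem (L.smul_mem _ hψ) (L.smul_mem _ hψ'), ?_⟩
    have : s • (φ0 + ψ) + t • (φ0 + ψ') = (s + t) • φ0 + (s • ψ + t • ψ') := by
      simp only [smul_add, add_smul]; abel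
    rw [this, hst, one_smul]
  obtain ⟨f, u, hf1, hf2⟩ := geometric_hahn_banach_open hPc hPo hTc (by
    rw [Set.disjoint_left]
    rintro φ hφ ⟨ψ, hψ, rfl⟩
    exact h ψ hψ hφ)
  have hu0 : 0 ≤ u := by
    have h1 : Tendsto (fun ε : ℝ => f (ε • (1 : C(X, ℝ)))) (𝓝[>] 0) (𝓝 (f ((0 : ℝ) • (1 : C(X, ℝ))))) := by
      apply Tendsto.mono_left _ nhdsWithin_le_nhds
      apply Continuous.tendsto
      fun_prop
    rw [zero_smul, map_zero] at h1
    refine le_of_tendsto h1 ?_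
    filter_upwards [self_mem_nhdsWithin] with ε hε
    exact (hf1 _ (fun x => by
      show 0 < ε * 1
      rw [mul_one]; exact hε)).le
  have hfpos : ∀ φ : C(X, ℝ), (∀ x, 0 < φ x) → f φ ≤ 0 := by
    intro φ hφ
    by_contra hcon
    push Not at hcon
    have h1 := hf1 (((|u| + 1) / f φ) • φ) (fun x => by
      show 0 < ((|u| + 1) / f φ) * φ x
      exact mul_pos (by positivity) (hφ x))
    rw [map_smul, smul_eq_mul, div_mul_cancel₀ _ hcon.ne'] at h1
    have := le_abs_self u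
    linarith
  have hfnn : ∀ φ : C(X, ℝ), (∀ x, 0 ≤ φ x) → f φ ≤ 0 := by
    intro φ hφ
    have h1 : Tendsto (fun ε : ℝ => f (φ + ε • (1 : C(X, ℝ)))) (𝓝[>] 0) (𝓝 (f (φ + (0 : ℝ) • (1 : C(X, ℝ))))) := by
      apply Tendsto.mono_left _ nhdsWithin_le_nhds
      apply Continuous.tendsto
      fun_prop
    rw [zero_smul, add_zero] at h1
    refine le_of_tendsto h1 ?_
    filter_upwards [self_mem_nhdsWithin] with ε hε
    refine hfpos _ (fun x => ?_)
    show 0 < φ x + ε * 1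
    have : (0 : ℝ) < ε := hε
    have := hφ x
    linarith
  have hfL : ∀ ψ ∈ L, f ψ = 0 := by
    intro ψ hψ
    by_contra hne
    have h1 := hf2 (φ0 + ((-(f φ0) + u - 1) / f ψ) • ψ) ⟨_, L.smul_mem _ hψ, rfl⟩
    rw [map_add, map_smul, smul_eq_mul, div_mul_cancel₀ _ hne] at h1
    linarith
  have hf0 : u ≤ f φ0 := hf2 φ0 ⟨0, L.zero_mem, (add_zero _).symm⟩
  refine ⟨-f, ?_, ?_, ?_, ?_⟩
  · intro φ hφ
    have := hfnn φ hφ
    simpa using this
  · have h1 : f 1 ≤ 0 := hfnn 1 (fun x => zero_le_one)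
    rcases h1.eq_or_lt with h0 | h0
    · exfalso
      have hz : ∀ φ : C(X, ℝ), f φ = 0 := by
        intro φ
        have e1 : ∀ φ : C(X, ℝ), f φ ≤ 0 := by
          intro φ
          have h2 := hfnn (φ + ‖φ‖ • (1 : C(X, ℝ))) (fun x => by
            show 0 ≤ φ x + ‖φ‖ * 1
            have := φ.norm_coe_le_norm x
            rw [Real.norm_eq_abs] at this
            have := (abs_le.1 this).1
            linarith)
          rw [map_add, map_smul, h0, smul_zero, add_zero] at h2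
          exact h2
        apply le_antisymm (e1 φ)
        have := e1 (-φ)
        rw [map_neg] at this
        linarith
      have h3 := hf1 1 (fun x => zero_lt_one)
      rw [hz] at h3
      rw [hz] at hf0
      linarith
    · show 0 < (-f) 1
      simpa using h0
  · show (-f) φ0 ≤ 0
    have : 0 ≤ f φ0 := hu0.trans hf0
    simpa using this
  · intro ψ hψ
    have := hfL ψ hψ
    simpa using this

variable {n : ℕ}

theorem SPM_evc (p : MvPolynomial (Fin n) ℂ) : Continuous (ev p : E n → ℂ) := by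
  unfold ev
  exact (MvPolynomial.continuous_eval p).comp (by fun_prop)

theorem SPM_ev_sum (s : Finset (Fin n)) (p : Fin n → MvPolynomial (Fin n) ℂ) (u : E n) :
    ev (∑ i ∈ s, p i) u = ∑ i ∈ s, ev (p i) u := by
  unfold ev
  simp only [map_sum]

theorem SPM_lin_sum (s : Finset (Fin n)) (p : Fin n → MvPolynomial (Fin n) ℂ) (u : E n) :
    lin (∑ i ∈ s, p i) u = ∑ i ∈ s, lin (p i) u := by
  unfold lin
  simp only [map_sum, Finset.mul_sum]
  rw [Finset.sum_comm]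

theorem SPM_quad_add (p q : MvPolynomial (Fin n) ℂ) (u : E n) : quad (p + q) u = quad p u + quad q u := by
  unfold quad
  simp only [map_add, mul_add, Finset.sum_add_distrib]

theorem SPM_quad_C (c : ℂ) (p : MvPolynomial (Fin n) ℂ) (u : E n) : quad (MvPolynomial.C c * p) u = c * quad p u := by
  unfold quad
  simp only [MvPolynomial.pderiv_C_mul, map_mul, MvPolynomial.eval_C, Finset.mul_sum]
  refine Finset.sum_congr rfl (fun i _ => Finset.sum_congr rfl (fun j _ => ?_))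
  ring

theorem SPM_quad_zero (u : E n) : quad (0 : MvPolynomial (Fin n) ℂ) u = 0 := by
  unfold quad
  simp

theorem SPM_quad_sum (s : Finset (Fin n)) (p : Fin n → MvPolynomial (Fin n) ℂ) (u : E n) :
    quad (∑ i ∈ s, p i) u = ∑ i ∈ s, quad (p i) u := by
  classical
  induction s using Finset.induction_on with
  | empty => simp [SPM_quad_zero]
  | insert a s ha ih => rw [Finset.sum_insert ha, Finset.sum_insert ha, SPM_quad_add, ih]

theorem SPM_lin_C (c : ℂ) (p : MvPolynomial (Fin n) ℂ) (u : E n) : lin (MvPolynomial.C c * p) u = c * lin p u := by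
  unfold lin
  simp only [MvPolynomial.pderiv_C_mul, map_mul, MvPolynomial.eval_C, Finset.mul_sum]
  refine Finset.sum_congr rfl (fun i _ => ?_)
  ring

theorem SPM_V1_add (p q : MvPolynomial (Fin n) ℂ) (hp : V1 p) (hq : V1 q) : V1 (p + q) := by
  unfold V1 at *
  rw [map_add, hp, hq, add_zero]

theorem SPM_V1_C (c : ℂ) (p : MvPolynomial (Fin n) ℂ) (hp : V1 p) : V1 (MvPolynomial.C c * p) := by
  unfold V1 at *
  rw [map_mul, hp, mul_zero]

theorem SPM_V1_sum (s : Finset (Fin n)) (p : Fin n → MvPolynomial (Fin n) ℂ) (hp : ∀ i, V1 (p i)) : V1 (∑ i ∈ s, p i) := by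
  unfold V1 at *
  rw [map_sum]
  exact Finset.sum_eq_zero (fun i _ => hp i)

theorem SPM_V2_add (p q : MvPolynomial (Fin n) ℂ) (hp : V2 p) (hq : V2 q) : V2 (p + q) := by
  refine ⟨SPM_V1_add p q hp.1 hq.1, fun i => ?_⟩
  rw [map_add, map_add, hp.2, hq.2, add_zero]

theorem SPM_V2_C (c : ℂ) (p : MvPolynomial (Fin n) ℂ) (hp : V2 p) : V2 (MvPolynomial.C c * p) := by
  refine ⟨SPM_V1_C c p hp.1, fun i => ?_⟩
  rw [MvPolynomial.pderiv_C_mul, map_mul, hp.2, mul_zero]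

theorem SPM_V2_zero : V2 (0 : MvPolynomial (Fin n) ℂ) := by
  refine ⟨by simp [V1], fun i => by simp⟩

theorem SPM_V1_X (i : Fin n) : V1 (MvPolynomial.X i : MvPolynomial (Fin n) ℂ) := by
  unfold V1
  simp

theorem SPM_ev_X (i : Fin n) (u : E n) : ev (MvPolynomial.X i) u = u i := by
  unfold ev
  simp

theorem SPM_lin_X (i : Fin n) (u : E n) : lin (MvPolynomial.X i) u = u i := by
  classical
  unfold lin
  simp [MvPolynomial.pderiv_X, Pi.single_apply, apply_ite]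

theorem SPM_quad_X (i : Fin n) (u : E n) : quad (MvPolynomial.X i) u = 0 := by
  classical
  unfold quad
  simp [MvPolynomial.pderiv_X, Pi.single_apply, apply_ite]

/-- the function of a polynomial map on the sphere. -/
noncomputable def SPM_Phi (p : Fin n → MvPolynomial (Fin n) ℂ) : C(sphere (0 : E n) 1, ℝ) :=
  ⟨fun ζ => (inner ℂ (ζ : E n) (pm p ζ) : ℂ).re, by
    have h1 : Continuous (fun z : E n => pm p z) := by
      unfold pm
      refine (PiLp.continuous_toLp 2 _).comp ?_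
      exact continuous_pi (fun j => SPM_evc (p j))
    exact Complex.continuous_re.comp ((continuous_subtype_val).inner (h1.comp continuous_subtype_val))⟩

theorem SPM_pm_add (p q : Fin n → MvPolynomial (Fin n) ℂ) (z : E n) : pm (fun j => p j + q j) z = pm p z + pm q z := by
  ext j
  simp [pm, ev]

theorem SPM_pm_C (c : ℂ) (p : Fin n → MvPolynomial (Fin n) ℂ) (z : E n) :
    pm (fun j => MvPolynomial.C c * p j) z = c • pm p z := by
  ext j
  simp [pm, ev]

theorem SPM_qm_add (p q : Fin n → MvPolynomial (Fin n) ℂ) (z : E n) : qm (fun j => p j + q j) z = qm p z + qm q z := by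
  ext j
  simp [qm, SPM_quad_add]

theorem SPM_qm_C (c : ℂ) (p : Fin n → MvPolynomial (Fin n) ℂ) (z : E n) :
    qm (fun j => MvPolynomial.C c * p j) z = c • qm p z := by
  ext j
  simp [qm, SPM_quad_C]

theorem SPM_Phi_add (p q : Fin n → MvPolynomial (Fin n) ℂ) : SPM_Phi (fun j => p j + q j) = SPM_Phi p + SPM_Phi q := by
  ext ζ
  show (inner ℂ (ζ : E n) (pm (fun j => p j + q j) ζ) : ℂ).re = (inner ℂ (ζ : E n) (pm p ζ) : ℂ).re + (inner ℂ (ζ : E n) (pm q ζ) : ℂ).re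
  rw [SPM_pm_add, inner_add_right, Complex.add_re]

theorem SPM_Phi_C (c : ℝ) (p : Fin n → MvPolynomial (Fin n) ℂ) :
    SPM_Phi (fun j => MvPolynomial.C (c : ℂ) * p j) = c • SPM_Phi p := by
  ext ζ
  show (inner ℂ (ζ : E n) (pm (fun j => MvPolynomial.C (c : ℂ) * p j) ζ) : ℂ).re = c * (inner ℂ (ζ : E n) (pm p ζ) : ℂ).re
  rw [SPM_pm_C, inner_smul_right, Complex.re_ofReal_mul]

/-- the functions of the admissible perturbations. -/
noncomputable def SPM_L (U V : E n) : Submodule ℝ C(sphere (0 : E n) 1, ℝ) where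
  carrier := {φ | ∃ h : Fin n → MvPolynomial (Fin n) ℂ, (∀ j, V2 (h j)) ∧ (inner ℂ V (qm h U) : ℂ).re = 0 ∧ φ = SPM_Phi h}
  add_mem' := by
    rintro a b ⟨h, h1, h2, rfl⟩ ⟨k, k1, k2, rfl⟩
    refine ⟨fun j => h j + k j, fun j => SPM_V2_add _ _ (h1 j) (k1 j), ?_, (SPM_Phi_add h k).symm⟩
    rw [SPM_qm_add, inner_add_right, Complex.add_re, h2, k2, add_zero]
  zero_mem' := by
    refine ⟨fun _ => 0, fun j => SPM_V2_zero, ?_, ?_⟩
    · have : qm (fun _ => (0 : MvPolynomial (Fin n) ℂ)) U = 0 := by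
        ext j
        simp [qm, SPM_quad_zero]
      rw [this, inner_zero_right, Complex.zero_re]
    · ext ζ
      have : pm (fun _ => (0 : MvPolynomial (Fin n) ℂ)) (ζ : E n) = 0 := by
        ext j
        simp [pm, ev]
      show (0 : ℝ) = (inner ℂ (ζ : E n) (pm (fun _ => (0 : MvPolynomial (Fin n) ℂ)) (ζ : E n)) : ℂ).re
      rw [this, inner_zero_right, Complex.zero_re]
  smul_mem' := by
    rintro c a ⟨h, h1, h2, rfl⟩
    refine ⟨fun j => MvPolynomial.C (c : ℂ) * h j, fun j => SPM_V2_C _ _ (h1 j), ?_, (SPM_Phi_C c h).symm⟩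
    rw [SPM_qm_C, inner_smul_right, Complex.re_ofReal_mul, h2, mul_zero]

/-- the linear polynomials of `A`. -/
noncomputable def SPM_aP (A : E n →L[ℂ] E n) (j : Fin n) : MvPolynomial (Fin n) ℂ :=
  ∑ i, MvPolynomial.C ((A (EuclideanSpace.single i 1)) j) * MvPolynomial.X i

theorem SPM_A_apply (A : E n →L[ℂ] E n) (z : E n) (j : Fin n) :
    (A z) j = ∑ i, (A (EuclideanSpace.single i 1)) j * z i := by
  have h := (EuclideanSpace.basisFun (Fin n) ℂ).sum_repr z
  conv_lhs => rw [← h]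
  simp [map_sum, mul_comm]

theorem SPM_V1_aP (A : E n →L[ℂ] E n) (j : Fin n) : V1 (SPM_aP A j) :=
  SPM_V1_sum _ _ (fun i => SPM_V1_C _ _ (SPM_V1_X i))

theorem SPM_ev_C (c : ℂ) (p : MvPolynomial (Fin n) ℂ) (u : E n) : ev (MvPolynomial.C c * p) u = c * ev p u := by
  simp [ev]

theorem SPM_pm_aP (A : E n →L[ℂ] E n) (z : E n) : pm (SPM_aP A) z = A z := by
  ext j
  show ev (SPM_aP A j) z = (A z) j
  rw [SPM_A_apply, SPM_aP, SPM_ev_sum]
  simp only [SPM_ev_C, SPM_ev_X]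

theorem SPM_lm_aP (A : E n →L[ℂ] E n) (z : E n) (j : Fin n) : lin (SPM_aP A j) z = (A z) j := by
  rw [SPM_A_apply, SPM_aP, SPM_lin_sum]
  simp only [SPM_lin_C, SPM_lin_X]

theorem SPM_qm_aP (A : E n →L[ℂ] E n) (z : E n) : qm (SPM_aP A) z = 0 := by
  ext j
  show quad (SPM_aP A j) z = 0
  rw [SPM_aP, SPM_quad_sum]
  simp only [SPM_quad_C, SPM_quad_X, mul_zero, Finset.sum_const_zero]

/-- the linear form of `U`. -/
noncomputable def SPM_q (U : E n) : MvPolynomial (Fin n) ℂ :=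
  ∑ i, MvPolynomial.C ((starRingEnd ℂ) (U i)) * MvPolynomial.X i

theorem SPM_V1_q (U : E n) : V1 (SPM_q U) :=
  SPM_V1_sum _ _ (fun i => SPM_V1_C _ _ (SPM_V1_X i))

theorem SPM_lin_q (U : E n) : lin (SPM_q U) U = ((‖U‖ ^ 2 : ℝ) : ℂ) := by
  rw [SPM_q, SPM_lin_sum, EuclideanSpace.norm_sq_eq]
  simp only [SPM_lin_C, SPM_lin_X, Complex.conj_mul']
  push_cast
  rfl

/-- the quadratic map of `U`, `V`. -/
noncomputable def SPM_q1 (U V : E n) (j : Fin n) : MvPolynomial (Fin n) ℂ :=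
  MvPolynomial.C (V j) * (SPM_q U * SPM_q U)

theorem SPM_lin_V2 (p : MvPolynomial (Fin n) ℂ) (hp : V2 p) (u : E n) : lin p u = 0 := by
  unfold lin
  exact Finset.sum_eq_zero (fun i _ => by rw [hp.2, mul_zero])

theorem SPM_lin_add (p q : MvPolynomial (Fin n) ℂ) (u : E n) : lin (p + q) u = lin p u + lin q u := by
  unfold lin
  simp only [map_add, mul_add, Finset.sum_add_distrib]

theorem SPM_qm_q1 (hPOL : POL_stmt) (U V : E n) : qm (SPM_q1 U V) U = ((‖U‖ ^ 4 : ℝ) : ℂ) • V := by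
  ext j
  show quad (SPM_q1 U V j) U = ((‖U‖ ^ 4 : ℝ) : ℂ) * V j
  rw [SPM_q1, SPM_quad_C, ((hPOL n).1 _ _ (SPM_V1_q U) (SPM_V1_q U)).2 U, SPM_lin_q]
  push_cast
  ring

theorem SPM_N1 (hPOL : POL_stmt) (U V : E n) : (inner ℂ V (qm (SPM_q1 U V) U) : ℂ).re = ‖U‖ ^ 4 * ‖V‖ ^ 2 := by
  rw [SPM_qm_q1 hPOL, inner_smul_right, Complex.re_ofReal_mul]
  congr 1
  have := inner_self_eq_norm_sq (𝕜 := ℂ) V
  exact this

theorem SPM (hPOL : POL_stmt) : SPM_stmt := by
  intro n A m hm hA U V hU hV c hc hno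
  have hU0 : 0 < ‖U‖ := norm_pos_iff.2 hU
  have hV0 : 0 < ‖V‖ := norm_pos_iff.2 hV
  haveI : Nonempty (sphere (0 : E n) 1) := ⟨⟨((‖U‖⁻¹ : ℝ) : ℂ) • U, by
    rw [mem_sphere_zero_iff_norm, norm_smul, Complex.norm_real, Real.norm_of_nonneg (by positivity), inv_mul_cancel₀ hU0.ne']⟩⟩
  set N1 : ℝ := ‖U‖ ^ 4 * ‖V‖ ^ 2 with hN1
  have hN1pos : 0 < N1 := by positivity
  have hq1V2 : ∀ j, V2 (SPM_q1 U V j) := fun j => SPM_V2_C _ _ ((hPOL n).1 _ _ (SPM_V1_q U) (SPM_V1_q U)).1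
  obtain ⟨ℓ, hℓ1, hℓ2, hℓ3, hℓ4⟩ := SPM_sep (SPM_L U V)
    (SPM_Phi (fun j => SPM_aP A j + MvPolynomial.C (((-(c / N1) : ℝ)) : ℂ) * SPM_q1 U V j)) (by
    rintro ψ ⟨h, h1, h2, rfl⟩ hpos
    apply hno
    refine ⟨fun j => (SPM_aP A j + MvPolynomial.C (((-(c / N1) : ℝ)) : ℂ) * SPM_q1 U V j) + h j, ?_, ?_, ?_, ?_⟩
    · intro j
      exact SPM_V1_add _ _ (SPM_V1_add _ _ (SPM_V1_aP A j) (SPM_V2_C _ _ (hq1V2 j)).1) (h1 j).1
    · intro z
      ext j
      show lin ((SPM_aP A j + MvPolynomial.C (((-(c / N1) : ℝ)) : ℂ) * SPM_q1 U V j) + h j) z = (A z) j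
      rw [SPM_lin_add, SPM_lin_add, SPM_lm_aP, SPM_lin_V2 _ (SPM_V2_C _ _ (hq1V2 j)), SPM_lin_V2 _ (h1 j), add_zero, add_zero]
    · intro ζ hζ
      have h3 := hpos ⟨ζ, hζ⟩
      rw [← SPM_Phi_add] at h3
      exact h3
    · rw [SPM_qm_add, SPM_qm_add (SPM_aP A), SPM_qm_aP, zero_add, SPM_qm_C, inner_add_right, Complex.add_re, h2, add_zero,
        inner_smul_right, Complex.re_ofReal_mul, SPM_N1 hPOL, ← hN1]
      have : -(-(c / N1) * N1) = c := by field_simp
      rw [this])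
  obtain ⟨μS, hfin, hint⟩ := SPM_rmk ℓ hℓ1
  set κ : ℝ := ℓ (SPM_Phi (SPM_q1 U V)) / N1 with hκ
  have hκN : ℓ (SPM_Phi (SPM_q1 U V)) = κ * N1 := by rw [hκ, div_mul_cancel₀ _ hN1pos.ne']
  have hrep : ∀ h : Fin n → MvPolynomial (Fin n) ℂ, (∀ j, V2 (h j)) →
      ℓ (SPM_Phi h) = κ * (inner ℂ V (qm h U) : ℂ).re := by
    intro h hh
    set r : ℝ := (inner ℂ V (qm h U) : ℂ).re / N1 with hr
    have h1 := hℓ4 (SPM_Phi (fun j => h j + MvPolynomial.C ((-r : ℝ) : ℂ) * SPM_q1 U V j)) ⟨_, ?_, ?_, rfl⟩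
    · rw [SPM_Phi_add, SPM_Phi_C, map_add, map_smul, hκN, smul_eq_mul] at h1
      have h2 : r * N1 = (inner ℂ V (qm h U) : ℂ).re := by rw [hr, div_mul_cancel₀ _ hN1pos.ne']
      linear_combination h1 + κ * h2
    · intro j
      exact SPM_V2_add _ _ (hh j) (SPM_V2_C _ _ (hq1V2 j))
    · rw [SPM_qm_add, SPM_qm_C, inner_add_right, Complex.add_re, inner_smul_right, Complex.re_ofReal_mul, SPM_N1 hPOL, ← hN1, hr]
      field_simp
      ring
  have hAP : ∀ ζ : sphere (0 : E n) 1, SPM_Phi (SPM_aP A) ζ = qA A ζ := by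
    intro ζ
    show (inner ℂ (ζ : E n) (pm (SPM_aP A) ζ) : ℂ).re = _
    rw [SPM_pm_aP]
    rfl
  have hAge : m * ℓ 1 ≤ ℓ (SPM_Phi (SPM_aP A)) := by
    have h1 := hℓ1 (SPM_Phi (SPM_aP A) - m • 1) (fun ζ => by
      show 0 ≤ SPM_Phi (SPM_aP A) ζ - m * 1
      rw [hAP ζ]
      have h2 := hA (ζ : E n)
      have h3 : ‖(ζ : E n)‖ = 1 := by
        have := ζ.2
        rwa [mem_sphere_zero_iff_norm] at this
      rw [h3] at h2
      linarith)
    rw [map_sub, map_smul, smul_eq_mul] at h1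
    linarith
  have hAle : ℓ (SPM_Phi (SPM_aP A)) ≤ κ * c := by
    rw [SPM_Phi_add, SPM_Phi_C, map_add, map_smul, hκN, smul_eq_mul] at hℓ3
    have h1 : -(c / N1) * (κ * N1) = -(κ * c) := by field_simp
    rw [h1] at hℓ3
    linarith
  have hκ0 : 0 < κ := by
    have h1 : 0 < κ * c := lt_of_lt_of_le (mul_pos hm hℓ2) (hAge.trans hAle)
    exact (pos_iff_pos_of_mul_pos h1).2 hc
  have hme : MeasurableEmbedding (Subtype.val : sphere (0 : E n) 1 → E n) :=
    MeasurableEmbedding.subtype_coe isClosed_sphere.measurableSet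
  set τ : ℝ := (κ * (‖U‖ ^ 2 * ‖V‖))⁻¹ with hτ
  have hτ0 : 0 < τ := by positivity
  refine ⟨ENNReal.ofReal τ • μS.map Subtype.val, ?_, ?_, ?_, ?_⟩
  · haveI : IsFiniteMeasure (μS.map (Subtype.val : sphere (0 : E n) 1 → E n)) := inferInstance
    exact Measure.smul_finite _ ENNReal.ofReal_ne_top
  · rw [Measure.smul_apply, hme.map_apply]
    have : (Subtype.val : sphere (0 : E n) 1 → E n) ⁻¹' (sphere (0 : E n) 1)ᶜ = ∅ := by
      ext ζ
      simp
    rw [this, measure_empty, smul_zero]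
  · intro p hp e
    rw [integral_smul_measure, ENNReal.toReal_ofReal hτ0.le, hme.integral_map]
    have hGc : ∀ e : E n, Continuous (fun ζ : sphere (0 : E n) 1 => ev p (ζ : E n) * (inner ℂ (ζ : E n) e : ℂ)) := by
      intro e
      exact ((SPM_evc p).comp continuous_subtype_val).mul (continuous_subtype_val.inner continuous_const)
    have hGi : ∀ e : E n, Integrable (fun ζ : sphere (0 : E n) 1 => ev p (ζ : E n) * (inner ℂ (ζ : E n) e : ℂ)) μS := by
      intro e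
      exact (hGc e).integrable_of_hasCompactSupport (HasCompactSupport.of_compactSpace _)
    have hre : ∀ e : E n, (∫ ζ : sphere (0 : E n) 1, ev p (ζ : E n) * (inner ℂ (ζ : E n) e : ℂ) ∂μS).re =
        κ * (quad p U * (inner ℂ V e : ℂ)).re := by
      intro e
      have h1 := hrep (fun j => MvPolynomial.C (e j) * p) (fun j => SPM_V2_C _ _ hp)
      have h2 : qm (fun j => MvPolynomial.C (e j) * p) U = quad p U • e := by
        ext j
        show quad (MvPolynomial.C (e j) * p) U = quad p U * e j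
        rw [SPM_quad_C, mul_comm]
      rw [h2, inner_smul_right, ← hint] at h1
      rw [← h1]
      have h3 := integral_re (hGi e)
      have h4 : (RCLike.re (∫ ζ : sphere (0 : E n) 1, ev p (ζ : E n) * (inner ℂ (ζ : E n) e : ℂ) ∂μS) : ℝ) =
        (∫ ζ : sphere (0 : E n) 1, ev p (ζ : E n) * (inner ℂ (ζ : E n) e : ℂ) ∂μS).re := rfl
      rw [← h4, ← h3]
      refine integral_congr_ae (Eventually.of_forall (fun ζ => ?_))
      show (ev p (ζ : E n) * (inner ℂ (ζ : E n) e : ℂ)).re =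
        (inner ℂ (ζ : E n) (pm (fun j => MvPolynomial.C (e j) * p) (ζ : E n)) : ℂ).re
      have h5 : pm (fun j => MvPolynomial.C (e j) * p) (ζ : E n) = ev p (ζ : E n) • e := by
        ext j
        show ev (MvPolynomial.C (e j) * p) (ζ : E n) = ev p (ζ : E n) * e j
        rw [SPM_ev_C, mul_comm]
      rw [h5, inner_smul_right]
    have hcx : (∫ ζ : sphere (0 : E n) 1, ev p (ζ : E n) * (inner ℂ (ζ : E n) e : ℂ) ∂μS) =
        (κ : ℂ) * (quad p U * (inner ℂ V e : ℂ)) := by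
      have h1 := hre e
      have h2 := hre (Complex.I • e)
      have h3 : (∫ ζ : sphere (0 : E n) 1, ev p (ζ : E n) * (inner ℂ (ζ : E n) (Complex.I • e) : ℂ) ∂μS) =
          Complex.I * (∫ ζ : sphere (0 : E n) 1, ev p (ζ : E n) * (inner ℂ (ζ : E n) e : ℂ) ∂μS) := by
        rw [← integral_const_mul]
        refine integral_congr_ae (Eventually.of_forall (fun ζ => ?_))
        show ev p (ζ : E n) * (inner ℂ (ζ : E n) (Complex.I • e) : ℂ) = Complex.I * (ev p (ζ : E n) * (inner ℂ (ζ : E n) e : ℂ))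
        rw [inner_smul_right]
        ring
      rw [h3, inner_smul_right] at h2
      have h4 : quad p U * (Complex.I * (inner ℂ V e : ℂ)) = Complex.I * (quad p U * (inner ℂ V e : ℂ)) := by ring
      rw [h4] at h2
      simp only [Complex.I_mul_re] at h2
      apply Complex.ext
      · rw [h1, Complex.re_ofReal_mul]
      · rw [Complex.im_ofReal_mul]
        linarith
    rw [hcx]
    have h1 : quad p (((‖U‖⁻¹ : ℝ) : ℂ) • U) = (((‖U‖⁻¹ : ℝ) : ℂ)) ^ 2 * quad p U :=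
      ((hPOL n).2.2.2.2.1 p _ U).1
    rw [h1, inner_neg_left, inner_smul_left, Complex.conj_ofReal, Complex.real_smul]
    have h2 : ((κ : ℝ) : ℂ) ≠ 0 := by exact_mod_cast hκ0.ne'
    have h3 : ((‖U‖ : ℝ) : ℂ) ≠ 0 := by exact_mod_cast hU0.ne'
    have h4 : ((‖V‖ : ℝ) : ℂ) ≠ 0 := by exact_mod_cast hV0.ne'
    rw [hτ]
    push_cast
    field_simp
  · rw [integral_smul_measure, ENNReal.toReal_ofReal hτ0.le, hme.integral_map]
    have h1 : ∫ ζ : sphere (0 : E n) 1, qA A (ζ : E n) ∂μS = ℓ (SPM_Phi (SPM_aP A)) := by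
      rw [← hint]
      exact integral_congr_ae (Eventually.of_forall (fun ζ => (hAP ζ).symm))
    rw [h1, smul_eq_mul]
    have h2 : τ * ℓ (SPM_Phi (SPM_aP A)) ≤ τ * (κ * c) := mul_le_mul_of_nonneg_left hAle hτ0.le
    refine h2.trans (le_of_eq ?_)
    rw [hτ]
    field_simp

end Pool.Agent.helper64.QF
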